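import Pool.Agent.H.MP_2786f0_ag.Zero

/-!
# A component which dominates the line
-/

namespace Pool.Agent.H.MP_2786f0_ag

open MvPolynomial

variable {k : Type*} [Field k]

theorem mem_of_X_mem {n : ℕ} (P : Ideal (MvPolynomial (Fin n) k)) (hX : ∀ i, X i ∈ P)
    (Q : MvPolynomial (Fin n) k)
    (hQ : Q ∈ RingHom.ker (aeval (fun _ => 0) : MvPolynomial (Fin n) k →ₐ[k] k)) : Q ∈ P := by
  have h1 : Ideal.Quotient.mkₐ k P = (Algebra.ofId k (MvPolynomial (Fin n) k ⧸ P)).comp
      (aeval (fun _ => 0) : MvPolynomial (Fin n) k →ₐ[k] k) := by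
    apply MvPolynomial.algHom_ext
    intro i
    rw [AlgHom.comp_apply, aeval_X, map_zero, Ideal.Quotient.mkₐ_eq_mk]
    exact Ideal.Quotient.eq_zero_iff_mem.2 (hX i)
  have h2 : Ideal.Quotient.mk P Q = 0 := by
    rw [← Ideal.Quotient.mkₐ_eq_mk k, h1, AlgHom.comp_apply]
    rw [RingHom.mem_ker] at hQ
    rw [hQ, map_zero]
  exact Ideal.Quotient.eq_zero_iff_mem.1 h2

/-- The equations `(1 - t) e_l + t H_l = 0` have the isolated solution `e = 0` at `t = 0`; by Krull's
height theorem a component through this point is not contained in `t = 0`. -/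
theorem exists_prime (n : ℕ) (H : Fin n → MvPolynomial (Fin (n + 1)) k) :
    ∃ P : Ideal (MvPolynomial (Fin (n + 1)) k), P.IsPrime ∧
      (∀ l, (1 - X 0) * X l.succ + X 0 * H l ∈ P) ∧ ∀ s : k, X 0 - C s ∉ P := by
  classical
  set E : Fin n → MvPolynomial (Fin (n + 1)) k := fun l => (1 - X 0) * X l.succ + X 0 * H l with hE
  set I : Ideal (MvPolynomial (Fin (n + 1)) k) := Ideal.span (Set.range E) with hI
  set m : Ideal (MvPolynomial (Fin (n + 1)) k) :=
    RingHom.ker (aeval (fun _ => 0) : MvPolynomial (Fin (n + 1)) k →ₐ[k] k) with hm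
  have hmp : m.IsPrime := RingHom.ker_isPrime _
  have hIm : I ≤ m := by
    rw [hI, Ideal.span_le]
    rintro _ ⟨l, rfl⟩
    show E l ∈ m
    rw [hm, RingHom.mem_ker, hE]
    simp
  obtain ⟨P, hP, hPm⟩ := Ideal.exists_minimalPrimes_le hIm
  have hPp : P.IsPrime := hP.1.1
  have hIP : I ≤ P := hP.1.2
  have hEP : ∀ l, E l ∈ P := fun l => hIP (Ideal.subset_span ⟨l, rfl⟩)
  have h1 := Ideal.height_le_card_of_mem_minimalPrimes_span (Set.finite_range E) hP
  have h2 := height_origin (k := k) (n := n + 1)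
  have h3 : ((Set.range E).ncard : ℕ∞) ≤ n := by
    have h4 : (Set.range E).ncard ≤ n := by
      rw [← Set.image_univ]
      refine (Set.ncard_image_le Set.finite_univ).trans ?_
      rw [Set.ncard_univ, Nat.card_eq_fintype_card, Fintype.card_fin]
    exact_mod_cast h4
  have hne : P ≠ m := by
    intro h
    rw [h] at h1
    have h5 : ((n + 1 : ℕ) : ℕ∞) ≤ n := (h2.trans h1).trans h3
    have h6 : n + 1 ≤ n := by exact_mod_cast h5
    omega
  have hX0 : (X 0 : MvPolynomial (Fin (n + 1)) k) ∉ P := by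
    intro h0
    apply hne
    refine le_antisymm hPm ?_
    intro Q hQ
    refine mem_of_X_mem P ?_ Q hQ
    intro i
    refine Fin.cases h0 (fun l => ?_) i
    have h5 : (X l.succ : MvPolynomial (Fin (n + 1)) k) = E l + X 0 * (X l.succ - H l) := by
      rw [hE]
      ring
    rw [h5]
    exact P.add_mem (hEP l) (P.mul_mem_right _ h0)
  refine ⟨P, hPp, hEP, fun s hs => ?_⟩
  have h5 := hPm hs
  rw [hm, RingHom.mem_ker, map_sub, aeval_X, aeval_C, zero_sub, neg_eq_zero] at h5
  have h6 : s = 0 := h5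
  rw [h6, C_0, sub_zero] at hs
  exact hX0 hs

end Pool.Agent.H.MP_2786f0_ag
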