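import Pool.Agent.H.MP_2786f0_ag.O.Stair

/-!
# The staircase for unordered weights and degrees
-/

namespace Pool.Agent.H.MP_2786f0_ag

open Polynomial

universe u

theorem sum_ext_nat {M : ℕ} (f : Fin M → ℕ) (m : ℕ) (hm : m ≤ M) :
    ∑ x ∈ Finset.range m, ((if h : x < M then f ⟨x, h⟩ else 0) + 1) =
      ∑ x ∈ Finset.univ.filter (fun x : Fin M => (x : ℕ) < m), (f x + 1) := by
  classical
  symm
  refine Finset.sum_bij (fun x _ => (x : ℕ)) (fun x hx => ?_) (fun x _ y _ h => Fin.ext h)
    (fun y hy => ?_) (fun x hx => ?_)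
  · exact Finset.mem_range.2 (Finset.mem_filter.1 hx).2
  · have h1 := Finset.mem_range.1 hy
    exact ⟨⟨y, by omega⟩, Finset.mem_filter.2 ⟨Finset.mem_univ _, h1⟩, rfl⟩
  · rw [dif_pos x.2]

/-- Polynomials `G j i = ε X ^ e` with `ε = 0` or `a i + e ≤ d j`, and for every position `(j, m)` a
vector `(σ i)` of polynomials of degree at most `a i` with `∑ σ i G j' i = X ^ m` if `j' = j` and
`0` otherwise. -/
theorem exists_staircase {k : Type u} [Field k] {N c : ℕ} (a : Fin N → ℕ)
    (d : Fin c → ℕ) (hd1 : ∀ j, 1 ≤ d j) (S : Finset (Fin N))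
    (fit1 : ∑ j, (d j + 1) ≤ ∑ i ∈ S, (a i + 1))
    (fit2 : ∀ D, 1 ≤ D → ∑ i ∈ Finset.univ.filter (fun i => D < a i), (a i + 1) ≤
      ∑ j ∈ Finset.univ.filter (fun j => D < d j), (d j + 1)) :
    ∃ (ε : Fin c → Fin N → k) (e : Fin c → Fin N → ℕ)
      (σ : (Σ j : Fin c, Fin (d j + 1)) → Fin N → k[X]),
      (∀ j i, ε j i ≠ 0 → i ∈ S ∧ a i + e j i ≤ d j) ∧
      (∀ l i, (σ l i).natDegree ≤ a i) ∧
      ∀ l j, ∑ i, σ l i * (C (ε j i) * X ^ (e j i)) = if j = l.1 then X ^ (l.2 : ℕ) else 0 := by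
  classical
  set M := Fintype.card S with hM
  -- sorted enumerations
  let e0 : Fin M ≃ S := (Fintype.equivFin S).symm
  let f : Fin M → ℕᵒᵈ := fun x => OrderDual.toDual (a (e0 x))
  let col : Fin M ≃ S := (Tuple.sort f).trans e0
  have hcol : ∀ x y : Fin M, x ≤ y → a (col y) ≤ a (col x) := by
    intro x y hxy
    have h1 := Tuple.monotone_sort f hxy
    exact h1
  let g : Fin c → ℕᵒᵈ := fun y => OrderDual.toDual (d y)
  let row : Equiv.Perm (Fin c) := Tuple.sort g
  have hrow : ∀ x y : Fin c, x ≤ y → d (row y) ≤ d (row x) := by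
    intro x y hxy
    have h1 := Tuple.monotone_sort g hxy
    exact h1
  set a' : ℕ → ℕ := fun i => if h : i < M then a (col ⟨i, h⟩) else 0 with ha'
  set d' : ℕ → ℕ := fun j => if h : j < c then d (row ⟨j, h⟩) else 0 with hd'
  have hav : ∀ i : Fin M, a' i = a (col i) := fun i => by rw [ha']; exact dif_pos i.2
  have hdv : ∀ j : Fin c, d' j = d (row j) := fun j => by rw [hd']; exact dif_pos j.2
  have hK : ∀ i j, i < M → j < c → ∑ j' ∈ Finset.range j, (d' j' + 1) <
      ∑ i' ∈ Finset.range (i + 1), (a' i' + 1) → a' i ≤ d' j := by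
    intro i j hi hj hlt
    by_contra hcon
    push Not at hcon
    have h1 : 1 ≤ d' j := by
      rw [hdv ⟨j, hj⟩]
      exact hd1 _
    have h2 := fit2 (d' j) h1
    have h3 : ∑ i' ∈ Finset.range (i + 1), (a' i' + 1) ≤
        ∑ i ∈ Finset.univ.filter (fun i => d' j < a i), (a i + 1) := by
      rw [ha', sum_ext_nat (fun x => a (col x)) (i + 1) (by omega)]
      have h4 : ∑ x ∈ Finset.univ.filter (fun x : Fin M => (x : ℕ) < i + 1), (a (col x) + 1) =
          ∑ i ∈ (Finset.univ.filter (fun x : Fin M => (x : ℕ) < i + 1)).image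
            (fun x => (col x : Fin N)), (a i + 1) := by
        rw [Finset.sum_image]
        intro x _ y _ h
        exact col.injective (Subtype.ext h)
      rw [h4]
      refine Finset.sum_le_sum_of_subset fun i' hi' => ?_
      obtain ⟨x, hx, rfl⟩ := Finset.mem_image.1 hi'
      refine Finset.mem_filter.2 ⟨Finset.mem_univ _, lt_of_lt_of_le hcon ?_⟩
      rw [hav ⟨i, hi⟩]
      refine hcol x ⟨i, hi⟩ ?_
      have h5 := (Finset.mem_filter.1 hx).2
      rw [Fin.le_def]
      show (x : ℕ) ≤ i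
      omega
    have h4 : ∑ j' ∈ Finset.univ.filter (fun j' => d' j < d j'), (d j' + 1) ≤
        ∑ j' ∈ Finset.range j, (d' j' + 1) := by
      have h5 : ∑ j' ∈ Finset.univ.filter (fun j' => d' j < d j'), (d j' + 1) =
          ∑ y ∈ Finset.univ.filter (fun y => d' j < d (row y)), (d (row y) + 1) := by
        symm
        refine Finset.sum_bij (fun y _ => row y) (fun y hy => ?_) (fun x _ y _ h => row.injective h)
          (fun j' hj' => ?_) (fun x _ => rfl)
        · exact Finset.mem_filter.2 ⟨Finset.mem_univ _, (Finset.mem_filter.1 hy).2⟩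
        · refine ⟨row.symm j', Finset.mem_filter.2 ⟨Finset.mem_univ _, ?_⟩, row.apply_symm_apply _⟩
          rw [row.apply_symm_apply]
          exact (Finset.mem_filter.1 hj').2
      have h9 : ∑ j' ∈ Finset.range j, (d' j' + 1) =
          ∑ y ∈ Finset.univ.filter (fun y : Fin c => (y : ℕ) < j), (d (row y) + 1) := by
        rw [hd', sum_ext_nat (fun x => d (row x)) j (by omega)]
      rw [h5, h9]
      refine Finset.sum_le_sum_of_subset fun y hy => ?_
      refine Finset.mem_filter.2 ⟨Finset.mem_univ _, ?_⟩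
      by_contra hcon2
      push Not at hcon2
      have h6 := (Finset.mem_filter.1 hy).2
      have h7 := hrow ⟨j, hj⟩ y (by
        rw [Fin.le_def]
        exact hcon2)
      have h8 : d' j = d (row ⟨j, hj⟩) := hdv ⟨j, hj⟩
      omega
    omega
  obtain ⟨ε, e, he, hy⟩ := stair (k := k) a' d' c M hK _ 0 0 0 rfl (fun _ => Nat.zero_le _)
    (by simp)
    (by
      rw [zero_add, ← Finset.range_eq_Ico, ← Finset.range_eq_Ico, Finset.sum_range, Finset.sum_range]
      simp only [hav, hdv]
      have h1 : ∑ j, (d (row j) + 1) = ∑ j, (d j + 1) := Equiv.sum_comp row (fun j => d j + 1)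
      have h2 : ∑ i, (a (col i) + 1) = ∑ i ∈ S, (a i + 1) := by
        rw [Equiv.sum_comp col (fun i : S => a i + 1), Finset.sum_coe_sort S (fun i => a i + 1)]
      rw [h1, h2]
      exact fit1)
  have key : ∀ l : (Σ j : Fin c, Fin (d j + 1)), ∃ g : Fin M → k[X],
      (∀ i, (g i).natDegree ≤ a (col i)) ∧
      ∀ j : Fin c, ∑ i : Fin M, g i * (C (ε j i) * X ^ (e j i)) =
        if row j = l.1 then X ^ (l.2 : ℕ) else 0 := by
    rintro ⟨j0, m⟩
    obtain ⟨u, g, hu, hg, hyy⟩ := hy (fun j => if h : j < c then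
        (if row ⟨j, h⟩ = j0 then X ^ (m : ℕ) else 0) else 0) (fun j _ h2 => by
      simp only [dif_pos h2]
      by_cases h : row ⟨j, h2⟩ = j0
      · rw [if_pos h]
        rw [degree_X_pow, hdv ⟨j, h2⟩, h]
        exact_mod_cast m.2
      · rw [if_neg h, degree_zero]
        exact WithBot.bot_lt_coe _)
    have hu0 : u = 0 := by
      by_contra hne
      rw [degree_eq_natDegree hne] at hu
      have : u.natDegree < 0 := by exact_mod_cast hu
      omega
    refine ⟨fun i => g i, fun i => ?_, fun j => ?_⟩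
    · have h1 := hg i
      rw [hav] at h1
      rw [natDegree_le_iff_coeff_eq_zero]
      intro n hn
      rw [degree_lt_iff_coeff_zero] at h1
      exact h1 n hn
    · have h1 := hyy j (Nat.zero_le _) j.2
      rw [hu0] at h1
      simp only [ite_self, zero_add, dif_pos j.2] at h1
      rw [← Finset.range_eq_Ico, Finset.sum_range] at h1
      rw [← h1]
  choose σ hσ1 hσ2 using key
  refine ⟨fun j i => if h : i ∈ S then ε (row.symm j) (col.symm ⟨i, h⟩) else 0,
    fun j i => if h : i ∈ S then e (row.symm j) (col.symm ⟨i, h⟩) else 0,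
    fun l i => if h : i ∈ S then σ l (col.symm ⟨i, h⟩) else 0, ?_, ?_, ?_⟩
  · intro j i h
    by_cases h0 : i ∈ S
    · simp only [dif_pos h0] at h ⊢
      refine ⟨h0, ?_⟩
      have h1 := he (row.symm j) (col.symm ⟨i, h0⟩) (row.symm j).2 (col.symm ⟨i, h0⟩).2 h
      rw [hav, hdv, Equiv.apply_symm_apply, Equiv.apply_symm_apply] at h1
      exact h1
    · simp only [dif_neg h0] at h
      exact absurd rfl h
  · intro l i
    by_cases h0 : i ∈ S
    · simp only [dif_pos h0]
      have h1 := hσ1 l (col.symm ⟨i, h0⟩)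
      rw [Equiv.apply_symm_apply] at h1
      exact h1
    · simp only [dif_neg h0, natDegree_zero]
      exact Nat.zero_le _
  · intro l j
    have h1 := hσ2 l (row.symm j)
    rw [Equiv.apply_symm_apply] at h1
    rw [← h1, ← Equiv.sum_comp col.symm, ← Finset.sum_subset (Finset.subset_univ S),
      ← Finset.sum_coe_sort S]
    · refine Finset.sum_congr rfl fun i _ => ?_
      simp only [dif_pos i.2]
    · intro i _ hi
      simp only [dif_neg hi, zero_mul]

end Pool.Agent.H.MP_2786f0_ag
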