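import Pool.Agent.H.MP_2786f0_ag.Line
import Pool.Agent.H.MP_2786f0_ag.O.Krull
import Pool.Agent.H.MP_2786f0_ag.O.Sort

/-!
# A curve of degree one on a member of a pencil, over an extension
-/

namespace Pool.Agent.H.MP_2786f0_ag

open Polynomial

universe u

/-- The generic curve near `(0, ..., 0, X, 1)`. -/
noncomputable def gphi {k : Type u} [Field k] {N c n : ℕ} {d : Fin c → ℕ}
    (σ : (Σ j : Fin c, Fin (d j + 1)) → Fin N → k[X])
    (eqv : (Σ j : Fin c, Fin (d j + 1)) ≃ Fin n) (i1 i2 : Fin N) (i : Fin N) :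
    (MvPolynomial (Fin (n + 1)) k)[X] :=
  if i = i1 then X else if i = i2 then 1 else
    ∑ l, C (MvPolynomial.X (eqv l).succ) * (σ l i).map MvPolynomial.C

/-- The special equations: linear in the variables other than the two special ones. -/
noncomputable def spF {k : Type u} [Field k] {N c : ℕ} (a : Fin N → ℕ) (d : Fin c → ℕ)
    (ε : Fin c → Fin N → k) (e : Fin c → Fin N → ℕ) (i1 i2 : Fin N) (j : Fin c) :
    MvPolynomial (Fin N) k :=
  ∑ i : Fin N, MvPolynomial.C (ε j i) * (MvPolynomial.X i *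
    (MvPolynomial.X i1 ^ (e j i) * MvPolynomial.X i2 ^ (d j - a i - e j i)))

theorem spF_homogeneous {k : Type u} [Field k] {N c : ℕ} (a : Fin N → ℕ) (d : Fin c → ℕ)
    (i1 i2 : Fin N) (h1 : a i1 = 1) (h2 : a i2 = 1)
    (ε : Fin c → Fin N → k) (e : Fin c → Fin N → ℕ)
    (he : ∀ j i, ε j i ≠ 0 → a i + e j i ≤ d j) (j : Fin c) :
    (spF a d ε e i1 i2 j).IsWeightedHomogeneous a (d j) := by
  refine MvPolynomial.IsWeightedHomogeneous.sum _ _ _ fun i _ => ?_
  by_cases h0 : ε j i = 0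
  · rw [h0, MvPolynomial.C_0, zero_mul]
    exact MvPolynomial.isWeightedHomogeneous_zero _ _ _
  · have h3 := he j i h0
    have h4 : d j = 0 + (a i + (e j i • a i1 + (d j - a i - e j i) • a i2)) := by
      rw [h1, h2, smul_eq_mul, smul_eq_mul, mul_one, mul_one]
      omega
    have h5 : (MvPolynomial.C (ε j i) * (MvPolynomial.X i *
        (MvPolynomial.X i1 ^ (e j i) * MvPolynomial.X i2 ^ (d j - a i - e j i))) :
        MvPolynomial (Fin N) k).IsWeightedHomogeneous a
        (0 + (a i + (e j i • a i1 + (d j - a i - e j i) • a i2))) :=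
      (MvPolynomial.isWeightedHomogeneous_C _ _).mul
        ((MvPolynomial.isWeightedHomogeneous_X _ _ _).mul
          (((MvPolynomial.isWeightedHomogeneous_X _ _ _).pow _).mul
            ((MvPolynomial.isWeightedHomogeneous_X _ _ _).pow _)))
    rw [← h4] at h5
    exact h5

theorem gphi_of_ne {k : Type u} [Field k] {N c n : ℕ} {d : Fin c → ℕ}
    (σ : (Σ j : Fin c, Fin (d j + 1)) → Fin N → k[X])
    (eqv : (Σ j : Fin c, Fin (d j + 1)) ≃ Fin n) (i1 i2 i : Fin N) (h1 : i ≠ i1) (h2 : i ≠ i2) :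
    gphi σ eqv i1 i2 i = ∑ l, C (MvPolynomial.X (eqv l).succ) * (σ l i).map MvPolynomial.C := by
  rw [gphi, if_neg h1, if_neg h2]

theorem gphi_one {k : Type u} [Field k] {N c n : ℕ} {d : Fin c → ℕ}
    (σ : (Σ j : Fin c, Fin (d j + 1)) → Fin N → k[X])
    (eqv : (Σ j : Fin c, Fin (d j + 1)) ≃ Fin n) (i1 i2 : Fin N) :
    gphi σ eqv i1 i2 i1 = X := by
  rw [gphi, if_pos rfl]

theorem gphi_two {k : Type u} [Field k] {N c n : ℕ} {d : Fin c → ℕ}
    (σ : (Σ j : Fin c, Fin (d j + 1)) → Fin N → k[X])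
    (eqv : (Σ j : Fin c, Fin (d j + 1)) ≃ Fin n) (i1 i2 : Fin N) (h12 : i1 ≠ i2) :
    gphi σ eqv i1 i2 i2 = 1 := by
  rw [gphi, if_neg h12.symm, if_pos rfl]

theorem gphi_natDegree {k : Type u} [Field k] {N c n : ℕ} {d : Fin c → ℕ} (a : Fin N → ℕ)
    (i1 i2 : Fin N) (h1 : a i1 = 1)
    (σ : (Σ j : Fin c, Fin (d j + 1)) → Fin N → k[X])
    (hσ : ∀ l i, (σ l i).natDegree ≤ a i)
    (eqv : (Σ j : Fin c, Fin (d j + 1)) ≃ Fin n) (i : Fin N) :
    (gphi σ eqv i1 i2 i).natDegree ≤ a i := by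
  rw [gphi]
  split_ifs with h h'
  · rw [h, h1]
    exact natDegree_X_le
  · rw [natDegree_one]
    exact Nat.zero_le _
  · refine natDegree_sum_le_of_forall_le _ _ fun l _ => ?_
    exact (natDegree_C_mul_le _ _).trans (natDegree_map_le.trans (hσ l i))

theorem aeval_spF {k : Type u} [Field k] {N c n : ℕ} (a : Fin N → ℕ) (d : Fin c → ℕ)
    (i1 i2 : Fin N) (h12 : i1 ≠ i2)
    (ε : Fin c → Fin N → k) (e : Fin c → Fin N → ℕ)
    (hε : ∀ j i, ε j i ≠ 0 → i ≠ i1 ∧ i ≠ i2)
    (σ : (Σ j : Fin c, Fin (d j + 1)) → Fin N → k[X])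
    (hσ : ∀ l j, ∑ i, σ l i * (C (ε j i) * X ^ (e j i)) = if j = l.1 then X ^ (l.2 : ℕ) else 0)
    (eqv : (Σ j : Fin c, Fin (d j + 1)) ≃ Fin n) (j : Fin c) :
    MvPolynomial.aeval (gphi σ eqv i1 i2) (spF a d ε e i1 i2 j) =
      ∑ m : Fin (d j + 1), C (MvPolynomial.X (eqv ⟨j, m⟩).succ) * X ^ (m : ℕ) := by
  classical
  have h1 : MvPolynomial.aeval (gphi σ eqv i1 i2) (spF a d ε e i1 i2 j) =
      ∑ i : Fin N, ∑ l, C (MvPolynomial.X (eqv l).succ) *
        (σ l i * (C (ε j i) * X ^ (e j i))).map MvPolynomial.C := by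
    rw [spF, map_sum]
    refine Finset.sum_congr rfl fun i _ => ?_
    by_cases h0 : ε j i = 0
    · rw [h0, MvPolynomial.C_0, zero_mul, map_zero]
      symm
      refine Finset.sum_eq_zero fun l _ => ?_
      rw [C_0, zero_mul, mul_zero, Polynomial.map_zero, mul_zero]
    obtain ⟨hi1, hi2⟩ := hε j i h0
    rw [map_mul, map_mul, map_mul, map_pow, map_pow, MvPolynomial.aeval_X, MvPolynomial.aeval_X,
      MvPolynomial.aeval_X, gphi_of_ne σ eqv i1 i2 i hi1 hi2, gphi_one, gphi_two _ _ _ _ h12,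
      one_pow, mul_one, MvPolynomial.aeval_C, Finset.sum_mul, Finset.mul_sum]
    refine Finset.sum_congr rfl fun l _ => ?_
    rw [Polynomial.map_mul, Polynomial.map_mul, Polynomial.map_pow, map_C, map_X,
      Polynomial.algebraMap_apply, MvPolynomial.algebraMap_eq]
    ring
  rw [h1, Finset.sum_comm]
  have h2 : ∀ l : (Σ j : Fin c, Fin (d j + 1)), ∑ i : Fin N, C (MvPolynomial.X (eqv l).succ) *
        (σ l i * (C (ε j i) * X ^ (e j i))).map (MvPolynomial.C : k →+* MvPolynomial (Fin (n + 1)) k) =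
      C (MvPolynomial.X (eqv l).succ) * (if j = l.1 then X ^ (l.2 : ℕ) else 0) := by
    intro l
    rw [← Finset.mul_sum, ← Polynomial.map_sum, hσ l j]
    congr 1
    split_ifs
    · rw [Polynomial.map_pow, map_X]
    · rw [Polynomial.map_zero]
  rw [Finset.sum_congr rfl fun l _ => h2 l, Fintype.sum_sigma]
  rw [Finset.sum_eq_single j]
  · refine Finset.sum_congr rfl fun m _ => ?_
    rw [if_pos rfl]
  · intro j' _ hj'
    refine Finset.sum_eq_zero fun m _ => ?_
    rw [if_neg (fun h => hj' h.symm), mul_zero]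
  · intro h
    exact absurd (Finset.mem_univ _) h

/-- A pencil through the equations `F j` which contains, over an extension, a curve of degree one:
the special member is linear in the variables other than `i1`, `i2`, and the staircase makes the
curve `(0, ..., 0, X, 1)` of the special member unobstructed. -/
theorem exists_over_extension {k : Type u} [Field k] [IsAlgClosed k] {N c : ℕ}
    (a : Fin N → ℕ) (d : Fin c → ℕ) (hd1 : ∀ j, 1 ≤ d j) (i1 i2 : Fin N) (h12 : i1 ≠ i2)
    (h1 : a i1 = 1) (h2 : a i2 = 1)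
    (fit1 : ∑ j, (d j + 1) ≤ ∑ i ∈ Finset.univ.filter (fun i => i ≠ i1 ∧ i ≠ i2), (a i + 1))
    (fit2 : ∀ D, 1 ≤ D → ∑ i ∈ Finset.univ.filter (fun i => D < a i), (a i + 1) ≤
      ∑ j ∈ Finset.univ.filter (fun j => D < d j), (d j + 1))
    (F : Fin c → MvPolynomial (Fin N) k) (hF : ∀ j, (F j).IsWeightedHomogeneous a (d j)) :
    ∃ (F0 : Fin c → MvPolynomial (Fin N) k) (L : Type u) (_ : Field L) (_ : IsAlgClosed L)
      (_ : Algebra k L) (t : L) (φ : Fin N → L[X]),
      (∀ j, (F0 j).IsWeightedHomogeneous a (d j)) ∧ Transcendental k t ∧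
      (∀ i, (φ i).natDegree ≤ a i) ∧ φ i1 = X ∧ φ i2 = 1 ∧
      ∀ j, MvPolynomial.aeval φ (MvPolynomial.C (1 - t) * MvPolynomial.map (algebraMap k L) (F0 j) +
        MvPolynomial.C t * MvPolynomial.map (algebraMap k L) (F j)) = 0 := by
  classical
  obtain ⟨ε, e, σ, he, hσ1, hσ2⟩ := exists_staircase (k := k) a d hd1
    (Finset.univ.filter (fun i => i ≠ i1 ∧ i ≠ i2)) fit1 fit2
  have hε : ∀ j i, ε j i ≠ 0 → i ≠ i1 ∧ i ≠ i2 := fun j i h => (Finset.mem_filter.1 (he j i h).1).2
  obtain ⟨eqv⟩ : Nonempty ((Σ j : Fin c, Fin (d j + 1)) ≃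
    Fin (Fintype.card (Σ j : Fin c, Fin (d j + 1)))) := ⟨Fintype.equivFin _⟩
  set n := Fintype.card (Σ j : Fin c, Fin (d j + 1)) with hn
  set Φ := gphi σ eqv i1 i2 with hΦ
  have hΦd : ∀ i, (Φ i).natDegree ≤ a i := gphi_natDegree a i1 i2 h1 σ hσ1 eqv
  obtain ⟨P, hP, hPE, hPs⟩ := exists_prime (k := k) n (fun l =>
    (MvPolynomial.aeval Φ (F (eqv.symm l).1)).coeff ((eqv.symm l).2 : ℕ))
  -- the coefficients of the equations lie in `P`
  set E : Fin c → (MvPolynomial (Fin (n + 1)) k)[X] := fun j =>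
    C (1 - MvPolynomial.X 0) * MvPolynomial.aeval Φ (spF a d ε e i1 i2 j) +
      C (MvPolynomial.X 0) * MvPolynomial.aeval Φ (F j) with hE
  have hEP : ∀ j m, (E j).coeff m ∈ P := by
    intro j m
    have hd1 := (aeval_degree' a (d j) (F j) (hF j) Φ hΦd).1
    rw [hE]
    simp only []
    rw [aeval_spF a d i1 i2 h12 ε e hε σ hσ2 eqv j, coeff_add, coeff_C_mul, coeff_C_mul]
    by_cases hm : m < d j + 1
    · have h3 : (∑ m : Fin (d j + 1), C (MvPolynomial.X (eqv ⟨j, m⟩).succ) *
          (X : (MvPolynomial (Fin (n + 1)) k)[X]) ^ (m : ℕ)).coeff m =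
          MvPolynomial.X (eqv ⟨j, ⟨m, hm⟩⟩).succ := by
        rw [finsetSum_coeff, Finset.sum_eq_single ⟨m, hm⟩]
        · rw [coeff_C_mul_X_pow, if_pos rfl]
        · intro b _ hb
          rw [coeff_C_mul_X_pow, if_neg]
          intro h
          exact hb (Fin.ext h.symm)
        · intro h
          exact absurd (Finset.mem_univ _) h
      rw [h3]
      have h4 := hPE (eqv ⟨j, ⟨m, hm⟩⟩)
      rw [Equiv.symm_apply_apply] at h4
      exact h4
    · have h3 : (∑ m : Fin (d j + 1), C (MvPolynomial.X (eqv ⟨j, m⟩).succ) *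
          (X : (MvPolynomial (Fin (n + 1)) k)[X]) ^ (m : ℕ)).coeff m = 0 := by
        rw [finsetSum_coeff]
        refine Finset.sum_eq_zero fun b _ => ?_
        rw [coeff_C_mul_X_pow, if_neg]
        have := b.2
        omega
      rw [h3, coeff_eq_zero_of_natDegree_lt (by omega), mul_zero, mul_zero, add_zero]
      exact P.zero_mem
  -- the extension
  set A := MvPolynomial (Fin (n + 1)) k ⧸ P
  set L := AlgebraicClosure (FractionRing A)
  set ψ : MvPolynomial (Fin (n + 1)) k →+* L := (algebraMap (FractionRing A) L).comp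
    ((algebraMap A (FractionRing A)).comp (Ideal.Quotient.mk P)) with hψ
  have hker : ∀ p, ψ p = 0 → p ∈ P := by
    intro p hp
    have h3 : algebraMap A (FractionRing A) (Ideal.Quotient.mk P p) = 0 := by
      apply (algebraMap (FractionRing A) L).injective
      rw [map_zero]
      exact hp
    have h4 : Ideal.Quotient.mk P p = 0 := by
      apply IsFractionRing.injective A (FractionRing A)
      rw [h3, map_zero]
    exact Ideal.Quotient.eq_zero_iff_mem.1 h4
  have hker' : ∀ p, p ∈ P → ψ p = 0 := by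
    intro p hp
    rw [hψ, RingHom.comp_apply, RingHom.comp_apply, Ideal.Quotient.eq_zero_iff_mem.2 hp, map_zero,
      map_zero]
  let algL : Algebra k L := (ψ.comp MvPolynomial.C).toAlgebra
  have halg : ∀ s : k, algebraMap k L s = ψ (MvPolynomial.C s) := fun s => rfl
  refine ⟨spF a d ε e i1 i2, L, inferInstance, inferInstance, algL, ψ (MvPolynomial.X 0),
    fun i => (Φ i).map ψ, spF_homogeneous a d i1 i2 h1 h2 ε e (fun j i h => (he j i h).2),
    ?_, ?_, ?_, ?_, ?_⟩
  · intro halgt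
    have h3 := minpoly.mem_range_of_degree_eq_one k (ψ (MvPolynomial.X 0))
      (IsAlgClosed.degree_eq_one_of_irreducible k (minpoly.irreducible halgt.isIntegral))
    obtain ⟨s, hs⟩ := h3
    apply hPs s
    apply hker
    rw [map_sub, sub_eq_zero]
    exact hs.symm
  · intro i
    exact natDegree_map_le.trans (hΦd i)
  · show (gphi σ eqv i1 i2 i1).map ψ = X
    rw [gphi_one, map_X]
  · show (gphi σ eqv i1 i2 i2).map ψ = 1
    rw [gphi_two _ _ _ _ h12, Polynomial.map_one]
  · intro j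
    have h3 : ∀ G : MvPolynomial (Fin N) k,
        MvPolynomial.aeval (fun i => (Φ i).map ψ) (MvPolynomial.map (algebraMap k L) G) =
          (MvPolynomial.aeval Φ G).map ψ := by
      intro G
      induction G using MvPolynomial.induction_on with
      | C s =>
        rw [MvPolynomial.map_C, MvPolynomial.aeval_C, MvPolynomial.aeval_C,
          Polynomial.algebraMap_apply, Polynomial.algebraMap_apply, map_C, halg]
        rfl
      | add p q hp hq => rw [map_add, map_add, hp, hq, map_add, Polynomial.map_add]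
      | mul_X p i hp =>
        rw [map_mul, map_mul, hp, MvPolynomial.map_X, MvPolynomial.aeval_X, map_mul,
          MvPolynomial.aeval_X, Polynomial.map_mul]
    have h5 : ∀ s : L, (algebraMap L L[X]) s = C s := fun s => rfl
    rw [map_add, map_mul, map_mul, h3, h3, MvPolynomial.aeval_C, MvPolynomial.aeval_C, h5, h5]
    have h4 : (E j).map ψ = 0 := by
      ext m
      rw [coeff_map, coeff_zero]
      exact hker' _ (hEP j m)
    rw [hE] at h4
    simp only [Polynomial.map_add, Polynomial.map_mul, map_C] at h4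
    rw [map_sub, map_one] at h4
    exact h4

end Pool.Agent.H.MP_2786f0_ag
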