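import Mathlib

/-!
# The staircase
-/

namespace Pool.Agent.H.MP_2786f0_ag

open Polynomial

variable {k : Type*} [Field k]

theorem split_poly (p : k[X]) (h b : ℕ) (hp : p.degree < ((h + b : ℕ) : WithBot ℕ)) :
    ∃ r w : k[X], p = r + w * X ^ h ∧ r.degree < (h : WithBot ℕ) ∧ w.degree < (b : WithBot ℕ) := by
  have h1 := modByMonic_add_div p ((X : k[X]) ^ h)
  have h2 : (p %ₘ (X ^ h)).degree < (h : WithBot ℕ) := by
    have := degree_modByMonic_lt p (monic_X_pow (R := k) h)
    rwa [degree_X_pow] at this
  refine ⟨p %ₘ (X ^ h), p /ₘ (X ^ h), ?_, h2, ?_⟩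
  · rw [mul_comm (p /ₘ (X ^ h))]
    exact h1.symm
  · rw [degree_lt_iff_coeff_zero]
    intro m hm
    rw [degree_lt_iff_coeff_zero] at hp h2
    have h3 : (X ^ h * (p /ₘ (X ^ h))).coeff (m + h) = (p /ₘ (X ^ h)).coeff m :=
      coeff_X_pow_mul _ _ _
    have h4 : X ^ h * (p /ₘ (X ^ h)) = p - p %ₘ (X ^ h) := by
      rw [eq_sub_iff_add_eq, add_comm]
      exact h1
    rw [← h3, h4, coeff_sub, hp (m + h) (by omega), h2 (m + h) (by omega), sub_zero]

/-- The staircase. Rows `j0 ≤ j < c` of length `d j + 1`, columns `i0 ≤ i < M` of length `a i + 1`, the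
positions below `h` of the row `j0` being already covered. The entries of the matrix are `0` or
`X ^ e`; a column which sticks out of a row is used again at the beginning of the next one. -/
theorem stair (a d : ℕ → ℕ) (c M : ℕ)
    (hK : ∀ i j, i < M → j < c → ∑ j' ∈ Finset.range j, (d j' + 1) <
      ∑ i' ∈ Finset.range (i + 1), (a i' + 1) → a i ≤ d j) :
    ∀ (n j0 i0 h : ℕ), (c - j0) + (M - i0) = n →
      (j0 < c → h ≤ d j0) →
      (∑ i ∈ Finset.range i0, (a i + 1) = ∑ j ∈ Finset.range j0, (d j + 1) + h) →
      (∑ j ∈ Finset.Ico j0 c, (d j + 1) ≤ h + ∑ i ∈ Finset.Ico i0 M, (a i + 1)) →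
      ∃ (ε : ℕ → ℕ → k) (e : ℕ → ℕ → ℕ),
        (∀ j i, j < c → i < M → ε j i ≠ 0 → a i + e j i ≤ d j) ∧
        ∀ y : ℕ → k[X], (∀ j, j0 ≤ j → j < c → (y j).degree < ((d j + 1 : ℕ) : WithBot ℕ)) →
          ∃ (u : k[X]) (g : ℕ → k[X]), u.degree < (h : WithBot ℕ) ∧
            (∀ i, (g i).degree < ((a i + 1 : ℕ) : WithBot ℕ)) ∧
            ∀ j, j0 ≤ j → j < c → y j = (if j = j0 then u else 0) +
              ∑ i ∈ Finset.Ico i0 M, g i * (C (ε j i) * X ^ (e j i)) := by
  intro n
  induction n using Nat.strong_induction_on with
  | _ n ih =>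
  intro j0 i0 h hn hh hS hcount
  by_cases hj : c ≤ j0
  · refine ⟨fun _ _ => 0, fun _ _ => 0, fun j i _ _ h0 => absurd rfl h0, fun y _ =>
      ⟨0, fun _ => 0, ?_, fun i => ?_, fun j h1 h2 => ?_⟩⟩
    · rw [degree_zero]
      exact WithBot.bot_lt_coe _
    · rw [degree_zero]
      exact WithBot.bot_lt_coe _
    · omega
  push Not at hj
  have hhd := hh hj
  have hi : i0 < M := by
    by_contra hcon
    push Not at hcon
    rw [Finset.Ico_eq_empty_of_le hcon, Finset.sum_empty,
      Finset.sum_eq_sum_Ico_succ_bot hj] at hcount
    omega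
  have hsi : ∑ i ∈ Finset.Ico i0 M, (a i + 1) =
      (a i0 + 1) + ∑ i ∈ Finset.Ico (i0 + 1) M, (a i + 1) := Finset.sum_eq_sum_Ico_succ_bot hi _
  have hsj : ∑ j ∈ Finset.Ico j0 c, (d j + 1) =
      (d j0 + 1) + ∑ j ∈ Finset.Ico (j0 + 1) c, (d j + 1) := Finset.sum_eq_sum_Ico_succ_bot hj _
  have hSi : ∑ i ∈ Finset.range (i0 + 1), (a i + 1) =
      ∑ j ∈ Finset.range j0, (d j + 1) + h + (a i0 + 1) := by
    rw [Finset.sum_range_succ, hS]
  have hSj : ∑ j ∈ Finset.range (j0 + 1), (d j + 1) =
      ∑ j ∈ Finset.range j0, (d j + 1) + (d j0 + 1) := Finset.sum_range_succ _ _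
  have ha0 : a i0 ≤ d j0 := hK i0 j0 hi hj (by omega)
  rcases lt_trichotomy (h + a i0) (d j0) with hlt | heq | hgt
  · -- the row stays incomplete
    obtain ⟨ε', e', he', hy'⟩ := ih (c - j0 + (M - (i0 + 1))) (by omega) j0 (i0 + 1) (h + a i0 + 1) rfl
      (fun _ => by omega)
      (by omega)
      (by omega)
    refine ⟨fun j i => if i = i0 then (if j = j0 then 1 else 0) else ε' j i,
      fun j i => if i = i0 then h else e' j i, ?_, ?_⟩
    · intro j i hjc hiM h0
      by_cases h1 : i = i0
      · simp only [h1, if_true] at h0 ⊢
        by_cases h2 : j = j0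
        · rw [h2]
          omega
        · rw [if_neg h2] at h0
          exact absurd rfl h0
      · simp only [if_neg h1] at h0 ⊢
        exact he' j i hjc hiM h0
    · intro y hy
      obtain ⟨u', g', hu', hg', hyy⟩ := hy' y hy
      obtain ⟨r, w, hrw, hr, hw⟩ := split_poly u' h (a i0 + 1) (by
        have h1 : h + (a i0 + 1) = h + a i0 + 1 := by omega
        rw [h1]
        exact hu')
      refine ⟨r, fun i => if i = i0 then w else g' i, hr, ?_, ?_⟩
      · intro i
        by_cases h1 : i = i0
        · simp only [h1, if_true]
          exact hw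
        · simp only [if_neg h1]
          exact hg' i
      · intro j h1 h2
        rw [hyy j h1 h2, Finset.sum_eq_sum_Ico_succ_bot hi]
        have h3 : ∑ i ∈ Finset.Ico (i0 + 1) M, (if i = i0 then w else g' i) *
            (C (if i = i0 then (if j = j0 then (1 : k) else 0) else ε' j i) *
              X ^ (if i = i0 then h else e' j i)) =
            ∑ i ∈ Finset.Ico (i0 + 1) M, g' i * (C (ε' j i) * X ^ (e' j i)) := by
          refine Finset.sum_congr rfl fun i hi2 => ?_
          have h4 := (Finset.mem_Ico.1 hi2).1
          have h5 : i ≠ i0 := by omega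
          simp only [if_neg h5]
        rw [h3]
        simp only [if_true]
        by_cases h4 : j = j0
        · simp only [h4, if_true, C_1, one_mul, hrw]
          ring
        · simp only [if_neg h4, C_0, zero_mul, mul_zero, zero_add]
  · -- exact fit
    obtain ⟨ε', e', he', hy'⟩ := ih (c - (j0 + 1) + (M - (i0 + 1))) (by omega) (j0 + 1) (i0 + 1) 0 rfl
      (fun _ => Nat.zero_le _)
      (by omega)
      (by omega)
    refine ⟨fun j i => if i = i0 then (if j = j0 then 1 else 0) else if j = j0 then 0 else ε' j i,
      fun j i => if i = i0 then h else e' j i, ?_, ?_⟩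
    · intro j i hjc hiM h0
      by_cases h1 : i = i0
      · simp only [h1, if_true] at h0 ⊢
        by_cases h2 : j = j0
        · rw [h2]
          omega
        · rw [if_neg h2] at h0
          exact absurd rfl h0
      · simp only [if_neg h1] at h0 ⊢
        by_cases h2 : j = j0
        · rw [if_pos h2] at h0
          exact absurd rfl h0
        · rw [if_neg h2] at h0
          exact he' j i hjc hiM h0
    · intro y hy
      obtain ⟨u', g', hu', hg', hyy⟩ := hy' y (fun j h1 h2 => hy j (by omega) h2)
      have hu0 : u' = 0 := by
        by_contra hne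
        rw [degree_eq_natDegree hne] at hu'
        have : u'.natDegree < 0 := by exact_mod_cast hu'
        omega
      obtain ⟨r, w, hrw, hr, hw⟩ := split_poly (y j0) h (a i0 + 1) (by
        have h1 : h + (a i0 + 1) = d j0 + 1 := by omega
        rw [h1]
        exact hy j0 le_rfl hj)
      refine ⟨r, fun i => if i = i0 then w else g' i, hr, ?_, ?_⟩
      · intro i
        by_cases h1 : i = i0
        · simp only [h1, if_true]
          exact hw
        · simp only [if_neg h1]
          exact hg' i
      · intro j h1 h2
        rw [Finset.sum_eq_sum_Ico_succ_bot hi]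
        have h3 : ∑ i ∈ Finset.Ico (i0 + 1) M, (if i = i0 then w else g' i) *
            (C (if i = i0 then (if j = j0 then (1 : k) else 0) else if j = j0 then 0 else ε' j i) *
              X ^ (if i = i0 then h else e' j i)) =
            if j = j0 then 0 else
              ∑ i ∈ Finset.Ico (i0 + 1) M, g' i * (C (ε' j i) * X ^ (e' j i)) := by
          by_cases h4 : j = j0
          · refine Eq.trans (Finset.sum_eq_zero fun i hi2 => ?_) (if_pos h4).symm
            have h6 := (Finset.mem_Ico.1 hi2).1
            have h5 : i ≠ i0 := by omega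
            simp only [if_neg h5, if_pos h4, C_0, zero_mul, mul_zero]
          · refine Eq.trans (Finset.sum_congr rfl fun i hi2 => ?_) (if_neg h4).symm
            have h6 := (Finset.mem_Ico.1 hi2).1
            have h5 : i ≠ i0 := by omega
            simp only [if_neg h5, if_neg h4]
        rw [h3]
        simp only [if_true]
        by_cases h4 : j = j0
        · simp only [h4, if_true, C_1, one_mul, hrw, add_zero]
        · have h5 := hyy j (by omega) h2
          rw [hu0] at h5
          simp only [if_neg h4, C_0, zero_mul, mul_zero, zero_add]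
          rw [h5]
          simp
  · -- the column sticks out of the row
    have hh0 : 0 < h := by omega
    by_cases hlast : c ≤ j0 + 1
    · refine ⟨fun j i => if i = i0 ∧ j = j0 then 1 else 0,
        fun _ _ => d j0 - a i0, ?_, ?_⟩
      · intro j i hjc hiM h0
        by_cases h1 : i = i0 ∧ j = j0
        · show a i + (d j0 - a i0) ≤ d j
          rw [h1.1, h1.2]
          omega
        · simp only [if_neg h1] at h0
          exact absurd rfl h0
      · intro y hy
        obtain ⟨r, w, hrw, hr, hw⟩ := split_poly (y j0) (d j0 - a i0) (a i0 + 1) (by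
          have h1 : d j0 - a i0 + (a i0 + 1) = d j0 + 1 := by omega
          rw [h1]
          exact hy j0 le_rfl hj)
        refine ⟨r, fun i => if i = i0 then w else 0, hr.trans_le ?_, ?_, ?_⟩
        · exact_mod_cast (by omega : d j0 - a i0 ≤ h)
        · intro i
          by_cases h1 : i = i0
          · simp only [h1, if_true]
            exact hw
          · simp only [if_neg h1, degree_zero]
            exact WithBot.bot_lt_coe _
        · intro j h1 h2
          have h3 : j = j0 := by omega
          rw [Finset.sum_eq_single i0]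
          · simp only [h3, if_true, and_self, C_1, one_mul]
            exact hrw
          · intro b _ hb
            simp only [if_neg hb, zero_mul]
          · intro h4
            exact absurd (Finset.mem_Ico.2 ⟨le_rfl, hi⟩) h4
    push Not at hlast
    have ha1 : a i0 ≤ d (j0 + 1) := hK i0 (j0 + 1) hi hlast (by omega)
    obtain ⟨ε', e', he', hy'⟩ := ih (c - (j0 + 1) + (M - (i0 + 1))) (by omega) (j0 + 1) (i0 + 1)
      (h + a i0 - d j0) rfl
      (fun _ => by omega)
      (by omega)
      (by omega)
    refine ⟨fun j i => if i = i0 then (if j = j0 ∨ j = j0 + 1 then 1 else 0) else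
        if j = j0 then 0 else ε' j i,
      fun j i => if i = i0 then (if j = j0 then d j0 - a i0 else 0) else e' j i, ?_, ?_⟩
    · intro j i hjc hiM h0
      by_cases h1 : i = i0
      · simp only [h1, if_true] at h0 ⊢
        by_cases h2 : j = j0
        · rw [if_pos h2, h2]
          omega
        · by_cases h3 : j = j0 + 1
          · rw [if_neg h2, h3]
            exact ha1
          · rw [if_neg (by tauto)] at h0
            exact absurd rfl h0
      · simp only [if_neg h1] at h0 ⊢
        by_cases h2 : j = j0
        · rw [if_pos h2] at h0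
          exact absurd rfl h0
        · rw [if_neg h2] at h0
          exact he' j i hjc hiM h0
    · intro y hy
      obtain ⟨r, w, hrw, hr, hw⟩ := split_poly (y j0) h (d j0 - h + 1) (by
        have h1 : h + (d j0 - h + 1) = d j0 + 1 := by omega
        rw [h1]
        exact hy j0 le_rfl hj)
      have hwX : (w * X ^ (h + a i0 - d j0)).degree < ((a i0 + 1 : ℕ) : WithBot ℕ) := by
        rw [degree_lt_iff_coeff_zero] at hw ⊢
        intro m hm
        rw [coeff_mul_X_pow']
        split_ifs with h5
        · exact hw _ (by omega)
        · rfl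
      obtain ⟨u', g', hu', hg', hyy⟩ := hy'
        (fun j => if j = j0 + 1 then y j - w * X ^ (h + a i0 - d j0) else y j)
        (fun j h1 h2 => by
          by_cases h3 : j = j0 + 1
          · simp only [if_pos h3]
            refine lt_of_le_of_lt (degree_sub_le _ _) (max_lt (hy j (by omega) h2) ?_)
            refine hwX.trans_le ?_
            rw [h3]
            exact_mod_cast (by omega : a i0 + 1 ≤ d (j0 + 1) + 1)
          · simp only [if_neg h3]
            exact hy j (by omega) h2)
      refine ⟨r - u' * X ^ (d j0 - a i0),
        fun i => if i = i0 then w * X ^ (h + a i0 - d j0) + u' else g' i, ?_, ?_, ?_⟩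
      · refine lt_of_le_of_lt (degree_sub_le _ _) (max_lt hr ?_)
        rw [degree_lt_iff_coeff_zero] at hu' ⊢
        intro m hm
        rw [coeff_mul_X_pow']
        split_ifs with h5
        · exact hu' _ (by omega)
        · rfl
      · intro i
        by_cases h1 : i = i0
        · simp only [h1, if_true]
          refine lt_of_le_of_lt (degree_add_le _ _) (max_lt hwX (hu'.trans_le ?_))
          exact_mod_cast (by omega : h + a i0 - d j0 ≤ a i0 + 1)
        · simp only [if_neg h1]
          exact hg' i
      · intro j h1 h2
        rw [Finset.sum_eq_sum_Ico_succ_bot hi]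
        have h3 : ∑ i ∈ Finset.Ico (i0 + 1) M,
            (if i = i0 then w * X ^ (h + a i0 - d j0) + u' else g' i) *
            (C (if i = i0 then (if j = j0 ∨ j = j0 + 1 then (1 : k) else 0) else
              if j = j0 then 0 else ε' j i) *
              X ^ (if i = i0 then (if j = j0 then d j0 - a i0 else 0) else e' j i)) =
            if j = j0 then 0 else
              ∑ i ∈ Finset.Ico (i0 + 1) M, g' i * (C (ε' j i) * X ^ (e' j i)) := by
          by_cases h4 : j = j0
          · refine Eq.trans (Finset.sum_eq_zero fun i hi2 => ?_) (if_pos h4).symm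
            have h6 := (Finset.mem_Ico.1 hi2).1
            have h5 : i ≠ i0 := by omega
            simp only [if_neg h5, if_pos h4, C_0, zero_mul, mul_zero]
          · refine Eq.trans (Finset.sum_congr rfl fun i hi2 => ?_) (if_neg h4).symm
            have h6 := (Finset.mem_Ico.1 hi2).1
            have h5 : i ≠ i0 := by omega
            simp only [if_neg h5, if_neg h4]
        rw [h3]
        simp only [if_true]
        by_cases h4 : j = j0
        · simp only [h4, if_true, true_or, C_1, one_mul, add_zero]
          rw [hrw]
          have h5 : X ^ h = (X : k[X]) ^ (h + a i0 - d j0) * X ^ (d j0 - a i0) := by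
            rw [← pow_add]
            congr 1
            omega
          rw [h5]
          ring
        · have h5 := hyy j (by omega) h2
          by_cases h6 : j = j0 + 1
          · simp only [if_pos h6] at h5
            simp only [if_neg h4, if_pos (Or.inr h6 : j = j0 ∨ j = j0 + 1), C_1, pow_zero,
              mul_one, zero_add]
            rw [sub_eq_iff_eq_add] at h5
            rw [h5]
            ring
          · simp only [if_neg h6] at h5
            simp only [if_neg h4, if_neg (by tauto : ¬ (j = j0 ∨ j = j0 + 1)), C_0, zero_mul,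
              mul_zero, zero_add]
            rw [h5, zero_add]

end Pool.Agent.H.MP_2786f0_ag
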